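import Pool.Agent.Helper77.DS.Defs

/-!
DS-10c: surjectivity of `pol` and symmetry of the annihilator of its kernel.
-/

namespace Pool.Agent.Helper77.DS

open MvPolynomial

noncomputable section

/-- The exponent of the product of the variables of a word. -/
def wtw {q : ℕ} {Ω : Type} (u : Fin q → Ω) : Ω →₀ ℕ := ∑ r, Finsupp.single (u r) 1

theorem prod_X_eq {q : ℕ} {Ω : Type} (u : Fin q → Ω) :
    ∏ r, (X (u r) : MvPolynomial Ω ℂ) = monomial (wtw u) 1 := by
  rw [wtw]
  have h : ∀ S : Finset (Fin q), ∏ r ∈ S, (X (u r) : MvPolynomial Ω ℂ)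
      = monomial (∑ r ∈ S, Finsupp.single (u r) 1) 1 := by
    classical
    intro S
    induction S using Finset.induction_on with
    | empty => simp
    | insert a S ha ih =>
      rw [Finset.prod_insert ha, Finset.sum_insert ha, ih, X, monomial_mul, one_mul]
  exact h _

theorem wtw_degree {q : ℕ} {Ω : Type} (u : Fin q → Ω) : (wtw u).degree = q := by
  rw [wtw, map_sum]
  simp [Finsupp.degree_single]

theorem exists_word {Ω : Type} : ∀ (q : ℕ) (m : Ω →₀ ℕ), m.degree = q →
    ∃ u : Fin q → Ω, wtw u = m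
  | 0, m, h => by
    have : m = 0 := (Finsupp.degree_eq_zero_iff m).1 h
    exact ⟨Fin.elim0, by rw [this]; simp [wtw]⟩
  | q + 1, m, h => by
    classical
    have hm : m ≠ 0 := by
      rintro rfl
      simp at h
    obtain ⟨a, ha⟩ := Finsupp.ne_iff.1 hm
    have ha' : 1 ≤ m a := Nat.one_le_iff_ne_zero.2 (by simpa using ha)
    have hle : Finsupp.single a 1 ≤ m := by
      rw [Finsupp.single_le_iff]; exact ha'
    obtain ⟨m', rfl⟩ := exists_add_of_le hle
    have hd : m'.degree = q := by
      rw [map_add, Finsupp.degree_single] at h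
      omega
    obtain ⟨u, hu⟩ := exists_word q m' hd
    refine ⟨Fin.cons a u, ?_⟩
    rw [wtw, Fin.sum_univ_succ]
    simp only [Fin.cons_zero, Fin.cons_succ]
    rw [← hu, wtw]

section

variable {p q : ℕ}

/-- The word chosen for the exponent of `u`. -/
def chw {Ω : Type} (u : Fin q → Ω) : Fin q → Ω :=
  Classical.choose (exists_word q (wtw u) (wtw_degree u))

theorem wtw_chw {Ω : Type} (u : Fin q → Ω) : wtw (chw u) = wtw u :=
  Classical.choose_spec (exists_word q (wtw u) (wtw_degree u))

theorem chw_congr {Ω : Type} {u v : Fin q → Ω} (h : wtw u = wtw v) : chw u = chw v := by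
  unfold chw
  congr 1
  simp only [h]

/-- DS-10c -/
theorem pol_surj {Ω : Type} [Fintype Ω] (c : (Fin p → Ω) → MvPolynomial Ω ℂ)
    (hc : ∀ s, (c s).IsHomogeneous q) : ∃ f : (Fin (p + q) → Ω) → ℂ, pol f = c := by
  classical
  refine ⟨fun t => if chw (fun r : Fin q => t (Fin.natAdd p r)) = (fun r => t (Fin.natAdd p r)) then
    coeff (wtw fun r : Fin q => t (Fin.natAdd p r)) (c fun r => t (Fin.castAdd q r)) else 0, ?_⟩
  funext s
  ext m
  simp only [pol, Fin.append_left, Fin.append_right, prod_X_eq]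
  rw [coeff_sum]
  simp only [coeff_C_mul, coeff_monomial, mul_ite, mul_one, mul_zero]
  by_cases hm : m.degree = q
  · obtain ⟨u, hu⟩ := exists_word q m hm
    rw [Finset.sum_eq_single (chw u)]
    · have h1 : wtw (chw u) = m := by rw [wtw_chw, hu]
      have h2 : chw (chw u) = chw u := chw_congr (wtw_chw u)
      rw [if_pos h1, if_pos h2, h1]
    · intro v _ hv
      split_ifs with h1 h2
      · exfalso
        apply hv
        exact h2.symm.trans (chw_congr (h1.trans hu.symm))
      · rfl
      · rfl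
    · intro h; exact absurd (Finset.mem_univ _) h
  · rw [Finset.sum_eq_zero]
    · exact ((hc s).coeff_eq_zero hm).symm
    · intro u _
      rw [if_neg]
      rintro rfl
      exact hm (wtw_degree u)

theorem pol_sub {Ω : Type} [Fintype Ω] (f g : (Fin (p + q) → Ω) → ℂ) :
    pol (fun t => f t - g t) = fun s => pol f s - pol g s := by
  funext s
  simp only [pol, C_sub, sub_mul, Finset.sum_sub_distrib]

open Classical in
theorem pol_delta {Ω : Type} [Fintype Ω] (t : Fin (p + q) → Ω) (s : Fin p → Ω) :
    pol (fun t' => if t' = t then (1 : ℂ) else 0) s =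
      if s = (fun r => t (Fin.castAdd q r)) then ∏ r : Fin q, X (t (Fin.natAdd p r)) else 0 := by
  simp only [pol]
  by_cases hs : s = fun r => t (Fin.castAdd q r)
  · subst hs
    rw [if_pos rfl, Finset.sum_eq_single (fun r => t (Fin.natAdd p r))]
    · have : Fin.append (fun r => t (Fin.castAdd q r)) (fun r => t (Fin.natAdd p r)) = t :=
        Fin.append_castAdd_natAdd
      rw [if_pos this]; simp
    · intro u _ hu
      rw [if_neg, C_0, zero_mul]
      intro h
      apply hu
      funext r
      rw [← h, Fin.append_right]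
    · intro h; exact absurd (Finset.mem_univ _) h
  · rw [if_neg hs]
    refine Finset.sum_eq_zero fun u _ => ?_
    rw [if_neg, C_0, zero_mul]
    intro h
    apply hs
    funext r
    rw [← h, Fin.append_left]

/-- DS-10c -/
theorem sym_of_pol {Ω : Type} [Fintype Ω] (g : (Fin (p + q) → Ω) → ℂ)
    (hg : ∀ f : (Fin (p + q) → Ω) → ℂ, pol f = 0 → ∑ t, f t * g t = 0)
    (σ : Equiv.Perm (Fin (p + q)))
    (hσ : ∀ r : Fin p, σ (Fin.castAdd q r) = Fin.castAdd q r) (t : Fin (p + q) → Ω) :
    g (fun r => t (σ r)) = g t := by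
  classical
  have h0 : (fun r : Fin p => t (σ (Fin.castAdd q r))) = fun r => t (Fin.castAdd q r) := by
    funext r; rw [hσ]
  have h1 : ∏ r : Fin q, (X (t (σ (Fin.natAdd p r))) : MvPolynomial Ω ℂ)
      = ∏ r : Fin q, X (t (Fin.natAdd p r)) := by
    have e1 : ∏ r, (X (t (σ r)) : MvPolynomial Ω ℂ) = ∏ r, X (t r) :=
      Equiv.prod_comp σ fun r => (X (t r) : MvPolynomial Ω ℂ)
    rw [Fin.prod_univ_add, Fin.prod_univ_add] at e1
    simp only [hσ] at e1
    refine mul_left_cancel₀ ?_ e1
    rw [Finset.prod_ne_zero_iff]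
    intro r _
    exact X_ne_zero _
  have h2 := hg (fun t' => (if t' = (fun r => t (σ r)) then (1 : ℂ) else 0) -
    (if t' = t then (1 : ℂ) else 0)) (by
      rw [pol_sub]
      funext s
      rw [pol_delta, pol_delta, h0, h1, sub_self]
      rfl)
  simp only [sub_mul, ite_mul, one_mul, zero_mul, Finset.sum_sub_distrib, Finset.sum_ite_eq',
    Finset.mem_univ, if_true] at h2
  exact sub_eq_zero.1 h2

end

end

end Pool.Agent.Helper77.DS
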